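import Mathlib
set_option autoImplicit false

/-! Tank UP (MP_98022b_gt), helper94: resolutions of modules over a noncommutative ring by matrices
(row vectors), existence over noetherian rings, lifts of semilinear maps, the cone of a lift, and the
exactness of the dual (column vectors). -/

namespace Pool.Agent.UP94

open Matrix

universe u v w

/-- A resolution of the left module `K` by row vectors: `I (n+1) → R` is mapped to `I n → R` by
`x ↦ x ᵥ* D n`. -/
structure MRes (R : Type u) [Ring R] (K : Type w) [AddCommGroup K] [Module R K] where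
  I : ℕ → Type
  fin : ∀ n, Fintype (I n)
  dec : ∀ n, DecidableEq (I n)
  D : ∀ n, Matrix (I (n + 1)) (I n) R
  e : (I 0 → R) →ₗ[R] K
  surj : Function.Surjective e
  ex0 : ∀ x : I 0 → R, e x = 0 ↔ ∃ y : I 1 → R, y ᵥ* D 0 = x
  exs : ∀ (n : ℕ) (x : I (n + 1) → R), x ᵥ* D n = 0 ↔ ∃ y : I (n + 2) → R, y ᵥ* D (n + 1) = x

attribute [instance] MRes.fin MRes.dec

/-- exactness of the dual complex (column vectors) at the position `n` -/
def DE {T : Type u} [Ring T] {I : ℕ → Type} [∀ n, Fintype (I n)]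
    (D : ∀ n, Matrix (I (n + 1)) (I n) T) : ℕ → Prop
  | 0 => ∀ c : I 0 → T, D 0 *ᵥ c = 0 → c = 0
  | n + 1 => ∀ c : I (n + 1) → T, D (n + 1) *ᵥ c = 0 → ∃ c' : I n → T, D n *ᵥ c' = c

section exist
variable {R : Type u} [Ring R]

theorem fg_matrix {m : ℕ} (M : Submodule R (Fin m → R)) (hM : M.FG) :
    ∃ (m' : ℕ) (D : Matrix (Fin m') (Fin m) R), ∀ x, x ∈ M ↔ ∃ y, y ᵥ* D = x := by
  obtain ⟨n, s, hs⟩ := Submodule.fg_iff_exists_fin_generating_family.mp hM
  refine ⟨n, Matrix.of s, fun x => ?_⟩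
  rw [← hs, Submodule.mem_span_range_iff_exists_fun]
  constructor
  · rintro ⟨c, hc⟩
    refine ⟨c, ?_⟩
    rw [Matrix.vecMul_eq_sum]
    exact hc
  · rintro ⟨c, hc⟩
    refine ⟨c, ?_⟩
    rw [Matrix.vecMul_eq_sum] at hc
    exact hc

/-- Over a noetherian ring every finite module has a resolution by matrices. -/
theorem exists_MRes [IsNoetherianRing R] (K : Type w) [AddCommGroup K] [Module R K]
    [Module.Finite R K] : Nonempty (MRes R K) := by
  classical
  obtain ⟨m0, e, he⟩ := Module.Finite.exists_fin' R K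
  let T : Type u := Σ m : ℕ, Submodule R (Fin m → R)
  have hfg : ∀ t : T, ∃ (m' : ℕ) (D : Matrix (Fin m') (Fin t.1) R),
      ∀ x, x ∈ t.2 ↔ ∃ y, y ᵥ* D = x := fun t => fg_matrix t.2 (IsNoetherian.noetherian t.2)
  choose m' D hD using hfg
  let stp : T → T := fun t => ⟨m' t, LinearMap.ker (Matrix.vecMulLinear (D t))⟩
  let s : ℕ → T := fun n => Nat.rec (motive := fun _ => T) ⟨m0, LinearMap.ker e⟩
    (fun _ t => stp t) n
  refine ⟨{ I := fun n => Fin (s n).1
            fin := fun n => inferInstance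
            dec := fun n => inferInstance
            D := fun n => D (s n)
            e := e
            surj := he
            ex0 := fun x => ?_
            exs := fun n x => ?_ }⟩
  · exact hD (s 0) x
  · have h := hD (s (n + 1)) x
    rw [← h]
    rfl

end exist

section lift
variable {R : Type u} [Ring R]

theorem vecMul_rows_eq {T : Type u} [Ring T] {m n k : Type} [Fintype m] [Fintype n]
    (A : Matrix m n T) (B : Matrix n k T) (i : m) : (A * B) i = A i ᵥ* B := rfl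

/-- composites vanish -/
theorem MRes.DD {K : Type w} [AddCommGroup K] [Module R K] (P : MRes R K) (n : ℕ) :
    P.D (n + 1) * P.D n = 0 := by
  funext i
  have h : (P.D (n + 1) i) ᵥ* P.D n = 0 := by
    rw [P.exs]
    refine ⟨Pi.single i 1, ?_⟩
    rw [Matrix.single_one_vecMul]
    rfl
  exact h

theorem MRes.De {K : Type w} [AddCommGroup K] [Module R K] (P : MRes R K) (i : P.I 1) :
    P.e (P.D 0 i) = 0 := by
  rw [P.ex0]
  refine ⟨Pi.single i 1, ?_⟩
  rw [Matrix.single_one_vecMul]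
  rfl

/-- `σ`-semilinear maps of modules lift to resolutions. -/
theorem exists_lift {K0 K1 : Type w} [AddCommGroup K0] [Module R K0] [AddCommGroup K1] [Module R K1]
    (P0 : MRes R K0) (P1 : MRes R K1) (σ : R →+* R) (φ : K1 →+ K0)
    (hφ : ∀ (r : R) (x : K1), φ (r • x) = σ r • φ x) :
    ∃ U : ∀ n, Matrix (P1.I n) (P0.I n) R,
      (∀ t : P1.I 0 → R, P0.e ((fun i => σ (t i)) ᵥ* U 0) = φ (P1.e t)) ∧
      ∀ n, (P1.D n).map σ * U n = U (n + 1) * P0.D n := by
  classical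
  -- the first matrix
  have h0 : ∀ i : P1.I 0, ∃ x : P0.I 0 → R, P0.e x = φ (P1.e (Pi.single i 1)) :=
    fun i => P0.surj _
  choose U0 hU0 using h0
  have hU0' : ∀ t : P1.I 0 → R, P0.e ((fun i => σ (t i)) ᵥ* (Matrix.of U0)) = φ (P1.e t) := by
    intro t
    rw [Matrix.vecMul_eq_sum, map_sum]
    have e1 : t = ∑ i, t i • (Pi.single i 1 : P1.I 0 → R) := by
      funext j
      simp [Finset.sum_apply, Pi.single_apply]
    have e2 : φ (P1.e t) = ∑ i, σ (t i) • φ (P1.e (Pi.single i 1)) := by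
      conv_lhs => rw [e1]
      rw [map_sum, map_sum]
      refine Finset.sum_congr rfl fun i _ => ?_
      rw [map_smul, hφ]
    rw [e2]
    refine Finset.sum_congr rfl fun i _ => ?_
    rw [map_smul]
    congr 1
    exact hU0 i
  let good : ∀ n, Matrix (P1.I n) (P0.I n) R → Prop := fun n U =>
    ∀ i : P1.I (n + 1), ∃ y : P0.I (n + 1) → R, y ᵥ* P0.D n = ((P1.D n).map σ * U) i
  have hgood0 : good 0 (Matrix.of U0) := by
    intro i
    rw [← P0.ex0, vecMul_rows_eq]
    have h1 := hU0' (P1.D 0 i)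
    rw [P1.De, map_zero] at h1
    exact h1
  have stp : ∀ n (U : Matrix (P1.I n) (P0.I n) R), good n U →
      ∃ U' : Matrix (P1.I (n + 1)) (P0.I (n + 1)) R, good (n + 1) U' ∧
        (P1.D n).map σ * U = U' * P0.D n := by
    intro n U hU
    choose y hy using hU
    have hU' : (P1.D n).map σ * U = (Matrix.of y) * P0.D n := by
      funext i
      rw [vecMul_rows_eq (Matrix.of y) (P0.D n) i]
      exact (hy i).symm
    refine ⟨Matrix.of y, ?_, hU'⟩
    intro i
    rw [← P0.exs, ← vecMul_rows_eq (((P1.D (n + 1)).map σ * Matrix.of y)) (P0.D n) i,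
      Matrix.mul_assoc, ← hU', ← Matrix.mul_assoc, ← Matrix.map_mul, P1.DD, Matrix.map_zero _ (map_zero σ),
      Matrix.zero_mul]
    rfl
  choose F hF1 hF2 using stp
  let q : ∀ n, {U : Matrix (P1.I n) (P0.I n) R // good n U} := fun n =>
    Nat.rec (motive := fun n => {U : Matrix (P1.I n) (P0.I n) R // good n U})
      ⟨Matrix.of U0, hgood0⟩ (fun n U => ⟨F n U.1 U.2, hF1 n U.1 U.2⟩) n
  exact ⟨fun n => (q n).1, hU0', fun n => hF2 n (q n).1 (q n).2⟩

end lift

section cone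
variable {T : Type u} [Ring T] {I0 I1 : ℕ → Type}

/-- index types of the cone -/
def cI (I0 I1 : ℕ → Type) : ℕ → Type
  | 0 => I0 0
  | n + 1 => I0 (n + 1) ⊕ I1 n

instance cIfin [∀ n, Fintype (I0 n)] [∀ n, Fintype (I1 n)] : ∀ n, Fintype (cI I0 I1 n)
  | 0 => inferInstanceAs (Fintype (I0 0))
  | n + 1 => inferInstanceAs (Fintype (I0 (n + 1) ⊕ I1 n))

instance cIdec [∀ n, DecidableEq (I0 n)] [∀ n, DecidableEq (I1 n)] : ∀ n, DecidableEq (cI I0 I1 n)
  | 0 => inferInstanceAs (DecidableEq (I0 0))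
  | n + 1 => inferInstanceAs (DecidableEq (I0 (n + 1) ⊕ I1 n))

/-- matrices of the cone -/
def cD (D0 : ∀ n, Matrix (I0 (n + 1)) (I0 n) T) (D1 : ∀ n, Matrix (I1 (n + 1)) (I1 n) T)
    (Φ : ∀ n, Matrix (I1 n) (I0 n) T) : ∀ n, Matrix (cI I0 I1 (n + 1)) (cI I0 I1 n) T
  | 0 => (Matrix.fromRows (D0 0) (Φ 0) : Matrix (I0 1 ⊕ I1 0) (I0 0) T)
  | n + 1 => (Matrix.fromBlocks (D0 (n + 1)) 0 (Φ (n + 1)) (-(D1 n)) :
      Matrix (I0 (n + 2) ⊕ I1 (n + 1)) (I0 (n + 1) ⊕ I1 n) T)

variable [∀ n, Fintype (I0 n)] [∀ n, Fintype (I1 n)] [∀ n, DecidableEq (I0 n)]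
  [∀ n, DecidableEq (I1 n)]
  (D0 : ∀ n, Matrix (I0 (n + 1)) (I0 n) T) (D1 : ∀ n, Matrix (I1 (n + 1)) (I1 n) T)
  (Φ : ∀ n, Matrix (I1 n) (I0 n) T)

omit [∀ n, DecidableEq (I0 n)] [∀ n, DecidableEq (I1 n)] in
theorem cD_zero_vecMul (s : I0 1 → T) (t : I1 0 → T) :
    (Sum.elim s t) ᵥ* (Matrix.fromRows (D0 0) (Φ 0)) = s ᵥ* D0 0 + t ᵥ* Φ 0 := by
  funext j
  simp [Matrix.vecMul, dotProduct, Fintype.sum_sum_type]

/-- The cone is a resolution. -/
def coneRes {K : Type w} [AddCommGroup K] [Module T K]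
    (hcomm : ∀ n, D1 n * Φ n = Φ (n + 1) * D0 n)
    (h0 : ∀ n (x : I0 (n + 1) → T), x ᵥ* D0 n = 0 ↔ ∃ y : I0 (n + 2) → T, y ᵥ* D0 (n + 1) = x)
    (h1 : ∀ n (x : I1 (n + 1) → T), x ᵥ* D1 n = 0 ↔ ∃ y : I1 (n + 2) → T, y ᵥ* D1 (n + 1) = x)
    (e : (I0 0 → T) →ₗ[T] K) (hsurj : Function.Surjective e)
    (he : ∀ x, e x = 0 ↔ ∃ (y : I0 1 → T) (t : I1 0 → T), y ᵥ* D0 0 + t ᵥ* Φ 0 = x)
    (hinj : ∀ (y : I0 1 → T) (t : I1 0 → T), y ᵥ* D0 0 + t ᵥ* Φ 0 = 0 →
      ∃ y' : I1 1 → T, y' ᵥ* D1 0 = t) : MRes T K where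
  I := cI I0 I1
  fin := cIfin
  dec := cIdec
  D := cD D0 D1 Φ
  e := e
  surj := hsurj
  ex0 := by
    intro x
    refine (he x).trans ?_
    constructor
    · rintro ⟨y, t, h⟩
      refine ⟨(Sum.elim y t : I0 1 ⊕ I1 0 → T), ?_⟩
      rw [← h]
      exact cD_zero_vecMul D0 Φ y t
    · rintro ⟨y, h⟩
      refine ⟨fun i => y (Sum.inl i), fun i => y (Sum.inr i), ?_⟩
      rw [← h, ← cD_zero_vecMul D0 Φ]
      have e1 : (Sum.elim (fun i => y (Sum.inl i)) (fun i => y (Sum.inr i)) : I0 1 ⊕ I1 0 → T) = y := by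
        funext i
        rcases i with i | i <;> rfl
      rw [e1]
      rfl
  exs := by
    have key : ∀ (n : ℕ) (s : I0 (n + 2) → T) (t : I1 (n + 1) → T),
        (Sum.elim s t) ᵥ* (Matrix.fromBlocks (D0 (n + 1)) 0 (Φ (n + 1)) (-(D1 n))) =
          Sum.elim (s ᵥ* D0 (n + 1) + t ᵥ* Φ (n + 1)) (-(t ᵥ* D1 n)) := by
      intro n s t
      rw [Matrix.vecMul_fromBlocks]
      simp [Matrix.vecMul_neg]
    have elim_eta : ∀ {A B : Type} (y : A ⊕ B → T),
        (Sum.elim (fun i => y (Sum.inl i)) (fun i => y (Sum.inr i))) = y := by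
      intro A B y
      funext i
      rcases i with i | i <;> rfl
    have DD0 : ∀ n (y : I0 (n + 2) → T), (y ᵥ* D0 (n + 1)) ᵥ* D0 n = 0 := fun n y =>
      (h0 n _).mpr ⟨y, rfl⟩
    have DD1 : ∀ n (y : I1 (n + 2) → T), (y ᵥ* D1 (n + 1)) ᵥ* D1 n = 0 := fun n y =>
      (h1 n _).mpr ⟨y, rfl⟩
    intro n
    rcases n with _ | n
    · intro x
      obtain ⟨s, t, rfl⟩ : ∃ (s : I0 1 → T) (t : I1 0 → T), x = Sum.elim s t :=
        ⟨_, _, (elim_eta x).symm⟩
      have h2 : (Sum.elim s t : I0 1 ⊕ I1 0 → T) ᵥ* (Matrix.fromRows (D0 0) (Φ 0)) =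
          s ᵥ* D0 0 + t ᵥ* Φ 0 := cD_zero_vecMul D0 Φ s t
      constructor
      · intro h
        have h3 : s ᵥ* D0 0 + t ᵥ* Φ 0 = 0 := by rw [← h2]; exact h
        obtain ⟨y', hy'⟩ := hinj s t h3
        have h4 : (s + y' ᵥ* Φ 1) ᵥ* D0 0 = 0 := by
          rw [Matrix.add_vecMul, Matrix.vecMul_vecMul, ← hcomm 0, ← Matrix.vecMul_vecMul, hy', h3]
        obtain ⟨y'', hy''⟩ := (h0 0 _).mp h4
        refine ⟨(Sum.elim y'' (-y') : I0 2 ⊕ I1 1 → T), ?_⟩
        refine (key 0 y'' (-y')).trans ?_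
        rw [hy'', Matrix.neg_vecMul, Matrix.neg_vecMul, neg_neg, hy']
        congr 1
        abel
      · rintro ⟨y, hy⟩
        obtain ⟨a, b, rfl⟩ : ∃ (a : I0 2 → T) (b : I1 1 → T), y = Sum.elim a b :=
          ⟨_, _, (elim_eta y).symm⟩
        have h3 := (key 0 a b).symm.trans hy
        have hs : s = a ᵥ* D0 1 + b ᵥ* Φ 1 := by
          funext i
          exact (congrFun h3 (Sum.inl i)).symm
        have ht : t = -(b ᵥ* D1 0) := by
          funext i
          exact (congrFun h3 (Sum.inr i)).symm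
        refine h2.trans ?_
        rw [hs, ht, Matrix.add_vecMul, DD0, Matrix.vecMul_vecMul, ← hcomm 0, Matrix.neg_vecMul,
          Matrix.vecMul_vecMul]
        abel
    · intro x
      obtain ⟨s, t, rfl⟩ : ∃ (s : I0 (n + 2) → T) (t : I1 (n + 1) → T), x = Sum.elim s t :=
        ⟨_, _, (elim_eta x).symm⟩
      constructor
      · intro h
        have h3 := (key n s t).symm.trans h
        have hs : s ᵥ* D0 (n + 1) + t ᵥ* Φ (n + 1) = 0 := by
          funext i
          exact congrFun h3 (Sum.inl i)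
        have ht : t ᵥ* D1 n = 0 := by
          funext i
          have := congrFun h3 (Sum.inr i)
          exact neg_eq_zero.mp this
        obtain ⟨y', hy'⟩ := (h1 n t).mp ht
        have h4 : (s + y' ᵥ* Φ (n + 2)) ᵥ* D0 (n + 1) = 0 := by
          rw [Matrix.add_vecMul, Matrix.vecMul_vecMul, ← hcomm (n + 1), ← Matrix.vecMul_vecMul, hy', hs]
        obtain ⟨y'', hy''⟩ := (h0 (n + 1) _).mp h4
        refine ⟨(Sum.elim y'' (-y') : I0 (n + 3) ⊕ I1 (n + 2) → T), ?_⟩
        refine (key (n + 1) y'' (-y')).trans ?_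
        rw [hy'', Matrix.neg_vecMul, Matrix.neg_vecMul, neg_neg, hy']
        congr 1
        abel
      · rintro ⟨y, hy⟩
        obtain ⟨a, b, rfl⟩ : ∃ (a : I0 (n + 3) → T) (b : I1 (n + 2) → T), y = Sum.elim a b :=
          ⟨_, _, (elim_eta y).symm⟩
        have h3 := (key (n + 1) a b).symm.trans hy
        have hs : s = a ᵥ* D0 (n + 2) + b ᵥ* Φ (n + 2) := by
          funext i
          exact (congrFun h3 (Sum.inl i)).symm
        have ht : t = -(b ᵥ* D1 (n + 1)) := by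
          funext i
          exact (congrFun h3 (Sum.inr i)).symm
        refine (key n s t).trans ?_
        rw [hs, ht, Matrix.add_vecMul, DD0, Matrix.vecMul_vecMul, ← hcomm (n + 1),
          Matrix.neg_vecMul, Matrix.neg_vecMul, DD1, Matrix.vecMul_vecMul]
        funext i
        rcases i with i | i
        · simp
          rfl
        · simp
          rfl

end cone

end Pool.Agent.UP94
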