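import Mathlib
import Pool.Agent.Lib.UP.SkL
import Pool.Agent.Lib.UP94.Mat
set_option autoImplicit false

/-! Tank UP (MP_98022b_gt), helper94: coefficient rows and columns over a skew Laurent ring;
exactness of rows and columns passes from `R` to `S`; the condition `J` of a cone. -/

namespace Pool.Agent.UP94

open Pool.Agent.UP
open scoped Matrix

universe u v w

section coef
variable {R : Type u} {S : Type v} [Ring R] [Ring S] (E : SkL R S)

/-- coefficient rows -/
noncomputable def rc {I : Type} (x : I → S) (j : ℤ) : I → R := fun i => E.co (x i) j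

/-- left coefficient columns -/
noncomputable def cc {I : Type} (c : I → S) (j : ℤ) : I → R := fun i => (E.sig ^ j) (E.co (c i) j)

theorem rc_zero {I : Type} (j : ℤ) : rc E (0 : I → S) j = 0 := by
  funext i; simp [rc]

theorem rc_add {I : Type} (x y : I → S) (j : ℤ) : rc E (x + y) j = rc E x j + rc E y j := by
  funext i; simp [rc]

theorem rc_neg {I : Type} (x : I → S) (j : ℤ) : rc E (-x) j = -rc E x j := by
  funext i; simp [rc]

theorem rc_sub {I : Type} (x y : I → S) (j : ℤ) : rc E (x - y) j = rc E x j - rc E y j := by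
  funext i; simp [rc]

theorem cc_zero {I : Type} (j : ℤ) : cc E (0 : I → S) j = 0 := by
  funext i; simp [cc]

theorem cc_add {I : Type} (x y : I → S) (j : ℤ) : cc E (x + y) j = cc E x j + cc E y j := by
  funext i; simp [cc]

theorem cc_sub {I : Type} (x y : I → S) (j : ℤ) : cc E (x - y) j = cc E x j - cc E y j := by
  funext i; simp [cc]

theorem co_sum {ι : Type*} (s : Finset ι) (f : ι → S) (j : ℤ) :
    E.co (∑ i ∈ s, f i) j = ∑ i ∈ s, E.co (f i) j := by
  rw [map_sum, Finsupp.finsetSum_apply]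

theorem rc_vecMul {m n : Type} [Fintype m] (x : m → S) (D : Matrix m n R) (j : ℤ) :
    rc E (x ᵥ* D.map E.iota) j = rc E x j ᵥ* D := by
  funext k
  simp only [rc, Matrix.vecMul, dotProduct, Matrix.map_apply, co_sum, SkL.co_mul_iota]

theorem cc_mulVec {m n : Type} [Fintype n] (c : n → S) (D : Matrix m n R) (j : ℤ) :
    cc E (D.map E.iota *ᵥ c) j = D *ᵥ cc E c j := by
  funext k
  show (E.sig ^ j) (E.co (∑ i, (D.map E.iota) k i * c i) j) = ∑ i, D k i * (E.sig ^ j) (E.co (c i) j)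
  rw [co_sum, map_sum]
  refine Finset.sum_congr rfl fun i _ => ?_
  rw [Matrix.map_apply, SkL.co_iota_mul, map_mul, ← RingAut.mul_apply, ← zpow_add, add_neg_cancel,
    zpow_zero, RingAut.one_apply]

/-- coefficients of `x z⁻¹` -/
theorem co_mul_zinv (s : S) (j : ℤ) :
    E.co (s * ((E.z⁻¹ : Sˣ) : S)) j = E.sig (E.co s (j + 1)) := by
  obtain ⟨f, rfl⟩ := E.co.symm.surjective s
  rw [AddEquiv.apply_symm_apply]
  induction f using Finsupp.induction_linear with
  | zero => simp
  | add f g hf hg =>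
    rw [map_add E.co.symm, add_mul, map_add, Finsupp.add_apply, hf, hg, Finsupp.add_apply,
      map_add E.sig]
  | single k r =>
    have h1 := E.iota_zpow (-1) r
    rw [neg_neg, zpow_one, zpow_neg_one] at h1
    rw [E.co_symm, mul_assoc, h1, ← mul_assoc, ← zpow_neg_one, ← Units.val_mul, ← zpow_add,
      E.co_single]
    by_cases h : k = j + 1
    · subst h
      rw [show j + 1 + -1 = j by ring, Finsupp.single_eq_same, Finsupp.single_eq_same]
    · have h' : k + -1 ≠ j := by omega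
      rw [Finsupp.single_eq_of_ne (Ne.symm h'), Finsupp.single_eq_of_ne (Ne.symm h), map_zero]

/-- coefficients of `z⁻¹ x` -/
theorem co_zinv_mul (s : S) (j : ℤ) :
    E.co (((E.z⁻¹ : Sˣ) : S) * s) j = E.co s (j + 1) := by
  have h := E.co_zpow_mul (-1) s j
  rw [zpow_neg_one] at h
  rw [h, sub_neg_eq_add]

theorem rc_ext {I : Type} {x y : I → S} (h : ∀ j, rc E x j = rc E y j) : x = y := by
  funext i
  exact E.ext_co fun j => congrFun (h j) i

theorem cc_ext {I : Type} {x y : I → S} (h : ∀ j, cc E x j = cc E y j) : x = y := by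
  funext i
  exact E.ext_co fun j => (E.sig ^ j).injective (congrFun (h j) i)

theorem rc_finite {I : Type} [Finite I] (x : I → S) : (Function.support (rc E x)).Finite := by
  refine (Set.finite_iUnion fun i : I => (E.co (x i)).hasFiniteSupport).subset ?_
  intro j hj
  by_contra h
  simp only [Set.mem_iUnion, Function.mem_support, not_exists, not_not] at h
  exact hj (funext h)

theorem cc_finite {I : Type} [Finite I] (x : I → S) : (Function.support (cc E x)).Finite := by
  refine (Set.finite_iUnion fun i : I => (E.co (x i)).hasFiniteSupport).subset ?_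
  intro j hj
  by_contra h
  simp only [Set.mem_iUnion, Function.mem_support, not_exists, not_not] at h
  refine hj (funext fun i => ?_)
  simp only [cc]
  rw [h i, map_zero]
  rfl

theorem exists_row {I : Type} (f : ℤ → I → R) (hf : (Function.support f).Finite) :
    ∃ x : I → S, ∀ j, rc E x j = f j := by
  refine ⟨fun i => E.co.symm (Finsupp.ofSupportFinite (fun j => f j i) (hf.subset ?_)), ?_⟩
  · intro j hj h
    exact hj (congrFun h i)
  · intro j
    funext i
    simp only [rc, AddEquiv.apply_symm_apply, Finsupp.ofSupportFinite_coe]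

theorem exists_col {I : Type} (f : ℤ → I → R) (hf : (Function.support f).Finite) :
    ∃ x : I → S, ∀ j, cc E x j = f j := by
  refine ⟨fun i => E.co.symm (Finsupp.ofSupportFinite (fun j => (E.sig ^ (-j)) (f j i))
    (hf.subset ?_)), ?_⟩
  · intro j hj h
    refine hj ?_
    show (E.sig ^ (-j)) (f j i) = 0
    rw [h]
    exact map_zero _
  · intro j
    funext i
    simp only [cc, AddEquiv.apply_symm_apply, Finsupp.ofSupportFinite_coe]
    rw [← RingAut.mul_apply, ← zpow_add, add_neg_cancel, zpow_zero, RingAut.one_apply]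

theorem row_lift {m n : Type} [Fintype m] [Finite n] (D : Matrix m n R) (x : n → S)
    (h : ∀ j, ∃ y : m → R, y ᵥ* D = rc E x j) : ∃ y : m → S, y ᵥ* D.map E.iota = x := by
  classical
  choose y hy using h
  obtain ⟨Y, hY⟩ := exists_row E (fun j => if rc E x j = 0 then 0 else y j)
    ((rc_finite E x).subset (by
      intro j hj h
      exact hj (if_pos h)))
  refine ⟨Y, rc_ext E fun j => ?_⟩
  rw [rc_vecMul, hY]
  by_cases h0 : rc E x j = 0
  · rw [if_pos h0, Matrix.zero_vecMul, h0]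
  · rw [if_neg h0, hy]

theorem col_lift {m n : Type} [Fintype n] [Finite m] (D : Matrix m n R) (x : m → S)
    (h : ∀ j, ∃ y : n → R, D *ᵥ y = cc E x j) : ∃ y : n → S, D.map E.iota *ᵥ y = x := by
  classical
  choose y hy using h
  obtain ⟨Y, hY⟩ := exists_col E (fun j => if cc E x j = 0 then 0 else y j)
    ((cc_finite E x).subset (by
      intro j hj h
      exact hj (if_pos h)))
  refine ⟨Y, cc_ext E fun j => ?_⟩
  rw [cc_mulVec, hY]
  by_cases h0 : cc E x j = 0
  · rw [if_pos h0, Matrix.mulVec_zero, h0]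
  · rw [if_neg h0, hy]

/-- row exactness over `S` -/
theorem rows_S {a b c : Type} [Fintype a] [Fintype b] [Fintype c] (D : Matrix b c R) (D' : Matrix a b R)
    (h : ∀ x : b → R, x ᵥ* D = 0 ↔ ∃ y : a → R, y ᵥ* D' = x) (x : b → S) :
    x ᵥ* D.map E.iota = 0 ↔ ∃ y : a → S, y ᵥ* D'.map E.iota = x := by
  constructor
  · intro hx
    refine row_lift E D' x fun j => ?_
    rw [← h, ← rc_vecMul, hx, rc_zero]
  · rintro ⟨y, rfl⟩
    refine rc_ext E fun j => ?_
    rw [rc_vecMul, rc_vecMul, rc_zero, h]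
    exact ⟨_, rfl⟩

/-- exactness of the dual passes from `R` to `S` -/
theorem DE_S {I : ℕ → Type} [∀ n, Fintype (I n)] (D : ∀ n, Matrix (I (n + 1)) (I n) R) (n : ℕ)
    (h : DE D n) : DE (fun n => (D n).map E.iota) n := by
  rcases n with _ | n
  · intro c hc
    refine cc_ext E fun j => ?_
    rw [cc_zero]
    refine h _ ?_
    rw [← cc_mulVec, hc, cc_zero]
  · intro c hc
    refine col_lift E (D n) c fun j => ?_
    refine h _ ?_
    rw [← cc_mulVec, hc, cc_zero]

end coef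

section J
variable {T : Type u} [Ring T] {I0 I1 : ℕ → Type}
  [∀ n, Fintype (I0 n)] [∀ n, Fintype (I1 n)]

/-- injectivity of the dual of `Φ` on the cohomology at the position `n` -/
def JE (D0 : ∀ n, Matrix (I0 (n + 1)) (I0 n) T) (D1 : ∀ n, Matrix (I1 (n + 1)) (I1 n) T)
    (Φ : ∀ n, Matrix (I1 n) (I0 n) T) : ℕ → Prop
  | 0 => ∀ c : I0 0 → T, D0 0 *ᵥ c = 0 → Φ 0 *ᵥ c = 0 → c = 0
  | n + 1 => ∀ (c : I0 (n + 1) → T) (d : I1 n → T), D0 (n + 1) *ᵥ c = 0 →
      Φ (n + 1) *ᵥ c = D1 n *ᵥ d → ∃ c' : I0 n → T, D0 n *ᵥ c' = c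

variable (D0 : ∀ n, Matrix (I0 (n + 1)) (I0 n) T) (D1 : ∀ n, Matrix (I1 (n + 1)) (I1 n) T)
  (Φ : ∀ n, Matrix (I1 n) (I0 n) T)

theorem JE_of_DE (n : ℕ) (h : DE D0 n) : JE D0 D1 Φ n := by
  rcases n with _ | n
  · intro c hc _
    exact h c hc
  · intro c d hc _
    exact h c hc

theorem fromRows_mulVec0 (c : I0 0 → T) :
    (Matrix.fromRows (D0 0) (Φ 0)) *ᵥ c = Sum.elim (D0 0 *ᵥ c) (Φ 0 *ᵥ c) := by
  funext i
  rcases i with i | i <;> rfl

theorem fromBlocks_mulVec1 (n : ℕ) (a : I0 (n + 1) → T) (b : I1 n → T) :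
    (Matrix.fromBlocks (D0 (n + 1)) 0 (Φ (n + 1)) (-(D1 n))) *ᵥ (Sum.elim a b) =
      Sum.elim (D0 (n + 1) *ᵥ a) (Φ (n + 1) *ᵥ a - D1 n *ᵥ b) := by
  rw [Matrix.fromBlocks_mulVec]
  simp [Matrix.neg_mulVec, sub_eq_add_neg]

theorem sum_elim_eta {A B : Type} (y : A ⊕ B → T) :
    (Sum.elim (fun i => y (Sum.inl i)) (fun i => y (Sum.inr i))) = y := by
  funext i
  rcases i with i | i <;> rfl

/-- the dual of the cone is exact at `n` if `JE` holds at `n` and the dual of `D1` is exact at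
`n - 1` -/
theorem DE_cone (hcomm : ∀ n, D1 n * Φ n = Φ (n + 1) * D0 n) (n : ℕ) (hJ : JE D0 D1 Φ n)
    (h1 : ∀ m, n = m + 1 → DE D1 m) : @DE T _ (cI I0 I1) cIfin (cD D0 D1 Φ) n := by
  rcases n with _ | _ | n
  · intro c hc
    have h2 := (fromRows_mulVec0 D0 Φ c).symm.trans hc
    refine hJ c ?_ ?_
    · funext i; exact congrFun h2 (Sum.inl i)
    · funext i; exact congrFun h2 (Sum.inr i)
  · intro c hc
    obtain ⟨a, b, rfl⟩ : ∃ (a : I0 1 → T) (b : I1 0 → T), c = Sum.elim a b :=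
      ⟨_, _, (sum_elim_eta c).symm⟩
    have h2 := (fromBlocks_mulVec1 D0 D1 Φ 0 a b).symm.trans hc
    have h3 : D0 1 *ᵥ a = 0 := by funext i; exact congrFun h2 (Sum.inl i)
    have h4 : Φ 1 *ᵥ a - D1 0 *ᵥ b = 0 := by funext i; exact congrFun h2 (Sum.inr i)
    obtain ⟨a', ha'⟩ := hJ a b h3 (sub_eq_zero.mp h4)
    have h5 : D1 0 *ᵥ (b - Φ 0 *ᵥ a') = 0 := by
      rw [Matrix.mulVec_sub, Matrix.mulVec_mulVec, hcomm 0, ← Matrix.mulVec_mulVec, ha',
        ← sub_eq_zero.mp h4, sub_self]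
    have h6 := h1 0 rfl _ h5
    refine ⟨a', (fromRows_mulVec0 D0 Φ a').trans ?_⟩
    rw [ha', ← sub_eq_zero.mp h6]
  · intro c hc
    obtain ⟨a, b, rfl⟩ : ∃ (a : I0 (n + 2) → T) (b : I1 (n + 1) → T), c = Sum.elim a b :=
      ⟨_, _, (sum_elim_eta c).symm⟩
    have h2 := (fromBlocks_mulVec1 D0 D1 Φ (n + 1) a b).symm.trans hc
    have h3 : D0 (n + 2) *ᵥ a = 0 := by funext i; exact congrFun h2 (Sum.inl i)
    have h4 : Φ (n + 2) *ᵥ a - D1 (n + 1) *ᵥ b = 0 := by funext i; exact congrFun h2 (Sum.inr i)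
    obtain ⟨a', ha'⟩ := hJ a b h3 (sub_eq_zero.mp h4)
    have h5 : D1 (n + 1) *ᵥ (b - Φ (n + 1) *ᵥ a') = 0 := by
      rw [Matrix.mulVec_sub, Matrix.mulVec_mulVec, hcomm (n + 1), ← Matrix.mulVec_mulVec, ha',
        ← sub_eq_zero.mp h4, sub_self]
    obtain ⟨b', hb'⟩ := h1 (n + 1) rfl _ h5
    refine ⟨(Sum.elim a' (-b') : I0 (n + 1) ⊕ I1 n → T),
      (fromBlocks_mulVec1 D0 D1 Φ n a' (-b')).trans ?_⟩
    rw [ha', Matrix.mulVec_neg, hb']
    congr 1
    abel

/-- conversely -/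
theorem JE_of_cone (n : ℕ) (h : @DE T _ (cI I0 I1) cIfin (cD D0 D1 Φ) n) : JE D0 D1 Φ n := by
  rcases n with _ | _ | n
  · intro c h1 h2
    refine h c ?_
    refine (fromRows_mulVec0 D0 Φ c).trans ?_
    rw [h1, h2]
    funext i
    rcases i with i | i <;> rfl
  · intro c d h1 h2
    obtain ⟨c', hc'⟩ := h (Sum.elim c d : I0 1 ⊕ I1 0 → T) (by
      refine (fromBlocks_mulVec1 D0 D1 Φ 0 c d).trans ?_
      rw [h1, h2, sub_self]
      funext i
      rcases i with i | i <;> rfl)
    refine ⟨c', ?_⟩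
    have h3 := (fromRows_mulVec0 D0 Φ c').symm.trans hc'
    funext i
    exact congrFun h3 (Sum.inl i)
  · intro c d h1 h2
    obtain ⟨c', hc'⟩ := h (Sum.elim c d : I0 (n + 2) ⊕ I1 (n + 1) → T) (by
      refine (fromBlocks_mulVec1 D0 D1 Φ (n + 1) c d).trans ?_
      rw [h1, h2, sub_self]
      funext i
      rcases i with i | i <;> rfl)
    obtain ⟨a, b, rfl⟩ : ∃ (a : I0 (n + 1) → T) (b : I1 n → T), c' = Sum.elim a b :=
      ⟨_, _, (sum_elim_eta c').symm⟩
    refine ⟨a, ?_⟩
    have h3 := (fromBlocks_mulVec1 D0 D1 Φ n a b).symm.trans hc'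
    funext i
    exact congrFun h3 (Sum.inl i)

end J

end Pool.Agent.UP94
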