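import Mathlib
import Pool.Agent.Lib.UP.Lat
import Pool.Agent.Lib.UP94.Coef
set_option autoImplicit false

/-! Tank UP (MP_98022b_gt), row R6 (helper94): the resolution over `S = R[z, 1/z; sig]` of a module
with a good lattice `K0`, as a cone of resolutions over `R` of `K1 = {x in K0 : z x in K0}` and
`K0`. -/

namespace Pool.Agent.UP94

open Pool.Agent.UP
open scoped Matrix

universe u v w

section JS
variable {R : Type u} {S : Type v} [Ring R] [Ring S] (E : SkL R S) {I0 I1 : ℕ → Type}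

theorem iota_zinv (r : R) :
    E.iota r * ((E.z⁻¹ : Sˣ) : S) = ((E.z⁻¹ : Sˣ) : S) * E.iota (E.sig r) := by
  have h1 := E.iota_zpow (-1) r
  rw [neg_neg, zpow_one, zpow_neg_one] at h1
  exact h1

/-- the matrices of the map `S ⊗ K1 → S ⊗ K0` -/
noncomputable def Phi (U V : ∀ n, Matrix (I1 n) (I0 n) R) (n : ℕ) : Matrix (I1 n) (I0 n) S :=
  Matrix.of (fun i j => E.iota (U n i j) - ((E.z⁻¹ : Sˣ) : S) * E.iota (V n i j))

theorem Phi_comm [∀ n, Fintype (I0 n)] [∀ n, Fintype (I1 n)]
    (D0 : ∀ n, Matrix (I0 (n + 1)) (I0 n) R) (D1 : ∀ n, Matrix (I1 (n + 1)) (I1 n) R)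
    (U V : ∀ n, Matrix (I1 n) (I0 n) R) (hU : ∀ n, D1 n * U n = U (n + 1) * D0 n)
    (hV : ∀ n, (D1 n).map (E.sig : R →+* R) * V n = V (n + 1) * D0 n) (n : ℕ) :
    (D1 n).map E.iota * Phi E U V n = Phi E U V (n + 1) * (D0 n).map E.iota := by
  funext i j
  have hu : ∑ k, D1 n i k * U n k j = ∑ k, U (n + 1) i k * D0 n k j :=
    congrFun (congrFun (hU n) i) j
  have hv : ∑ k, E.sig (D1 n i k) * V n k j = ∑ k, V (n + 1) i k * D0 n k j :=
    congrFun (congrFun (hV n) i) j
  have hu' := congrArg E.iota hu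
  have hv' := congrArg (fun t => ((E.z⁻¹ : Sˣ) : S) * E.iota t) hv
  simp only [map_sum, map_mul, Finset.mul_sum] at hu' hv'
  show ∑ k, E.iota (D1 n i k) * (E.iota (U n k j) - ((E.z⁻¹ : Sˣ) : S) * E.iota (V n k j)) =
    ∑ k, (E.iota (U (n + 1) i k) - ((E.z⁻¹ : Sˣ) : S) * E.iota (V (n + 1) i k)) * E.iota (D0 n k j)
  simp only [mul_sub, sub_mul, Finset.sum_sub_distrib]
  rw [hu']
  congr 1
  rw [show (∑ k, E.iota (D1 n i k) * (((E.z⁻¹ : Sˣ) : S) * E.iota (V n k j))) =
    ∑ k, ((E.z⁻¹ : Sˣ) : S) * (E.iota (E.sig (D1 n i k)) * E.iota (V n k j)) from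
      Finset.sum_congr rfl fun k _ => by rw [← mul_assoc, iota_zinv, mul_assoc], hv']
  exact Finset.sum_congr rfl fun k _ => by rw [mul_assoc]

theorem rc_Phi [∀ n, Fintype (I1 n)] (U V : ∀ n, Matrix (I1 n) (I0 n) R) (n : ℕ) (t : I1 n → S)
    (j : ℤ) : rc E (t ᵥ* Phi E U V n) j =
      rc E t j ᵥ* U n - (fun i => E.sig (rc E t (j + 1) i)) ᵥ* V n := by
  funext k
  show E.co (∑ i, t i * (E.iota (U n i k) - ((E.z⁻¹ : Sˣ) : S) * E.iota (V n i k))) j =
    ∑ i, E.co (t i) j * U n i k - ∑ i, E.sig (E.co (t i) (j + 1)) * V n i k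
  rw [co_sum, ← Finset.sum_sub_distrib]
  refine Finset.sum_congr rfl fun i _ => ?_
  rw [mul_sub, map_sub, Finsupp.sub_apply, E.co_mul_iota, ← mul_assoc, E.co_mul_iota, co_mul_zinv]

theorem cc_Phi [∀ n, Fintype (I0 n)] (U V : ∀ n, Matrix (I1 n) (I0 n) R) (n : ℕ) (c : I0 n → S)
    (j : ℤ) : cc E (Phi E U V n *ᵥ c) j =
      U n *ᵥ cc E c j - (fun i => (E.sig ^ (-1 : ℤ)) ((V n *ᵥ cc E c (j + 1)) i)) := by
  funext k
  show (E.sig ^ j) (E.co (∑ i, (E.iota (U n k i) - ((E.z⁻¹ : Sˣ) : S) * E.iota (V n k i)) * c i) j) =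
    ∑ i, U n k i * (E.sig ^ j) (E.co (c i) j) -
      (E.sig ^ (-1 : ℤ)) (∑ i, V n k i * (E.sig ^ (j + 1)) (E.co (c i) (j + 1)))
  rw [co_sum, map_sum, map_sum, ← Finset.sum_sub_distrib]
  refine Finset.sum_congr rfl fun i _ => ?_
  rw [sub_mul, map_sub, Finsupp.sub_apply, map_sub, E.co_iota_mul, mul_assoc, co_zinv_mul,
    E.co_iota_mul]
  simp only [map_mul, ← RingAut.mul_apply, ← zpow_add]
  rw [add_neg_cancel, zpow_zero, RingAut.one_apply]
  congr 4
  · ring_nf
  · ring_nf

variable [∀ n, Fintype (I0 n)] [∀ n, Fintype (I1 n)]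

/-- the condition `JE` passes from `R` (for `U`) to `S` (for `Phi`) -/
theorem JE_S' (D0 : ∀ n, Matrix (I0 (n + 1)) (I0 n) R) (D1 : ∀ n, Matrix (I1 (n + 1)) (I1 n) R)
    (U V : ∀ n, Matrix (I1 n) (I0 n) R)
    (hPhi : ∀ n, (D1 n).map E.iota * Phi E U V n = Phi E U V (n + 1) * (D0 n).map E.iota)
    (hDD : ∀ n, D0 (n + 1) * D0 n = 0) (n : ℕ) (h : JE D0 D1 U n) :
    JE (fun n => (D0 n).map E.iota) (fun n => (D1 n).map E.iota) (Phi E U V) n := by
  rcases n with _ | n
  · intro c h1 h2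
    obtain ⟨N, hN⟩ : ∃ N : ℤ, ∀ j, N ≤ j → cc E c j = 0 := by
      obtain ⟨N, hN⟩ := (cc_finite E c).bddAbove
      refine ⟨N + 1, fun j hj => ?_⟩
      by_contra hcon
      have := hN (Function.mem_support.mpr hcon)
      omega
    have h3 : ∀ k : ℕ, cc E c (N - k) = 0 := by
      intro k
      induction k with
      | zero => exact hN _ (by simp)
      | succ k ih =>
        refine h _ ?_ ?_
        · rw [← cc_mulVec, h1, cc_zero]
        · have h4 := cc_Phi E U V 0 c (N - (k + 1 : ℕ))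
          rw [h2, cc_zero, show N - ((k + 1 : ℕ) : ℤ) + 1 = N - k by push_cast; ring, ih,
            Matrix.mulVec_zero] at h4
          have h5 : (fun i : I1 0 => (E.sig ^ (-1 : ℤ)) ((0 : I1 0 → R) i)) = 0 := by
            funext i; exact map_zero _
          rw [h5, sub_zero] at h4
          exact h4.symm
    refine cc_ext E fun j => ?_
    rw [cc_zero]
    by_cases hj : N ≤ j
    · exact hN j hj
    · have := h3 (N - j).toNat
      rwa [show N - ((N - j).toNat : ℤ) = j by omega] at this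
  · intro c d h1 h2
    obtain ⟨A, hA⟩ : ∃ A : ℤ, ∀ j, j < A → cc E c j = 0 := by
      obtain ⟨A, hA⟩ := (cc_finite E c).bddBelow
      refine ⟨A, fun j hj => ?_⟩
      by_contra hcon
      have := hA (Function.mem_support.mpr hcon)
      omega
    obtain ⟨N, hN⟩ : ∃ N : ℕ, ∀ j, A + N ≤ j → cc E c j = 0 := by
      obtain ⟨N, hN⟩ := (cc_finite E c).bddAbove
      refine ⟨(N - A + 1).toNat, fun j hj => ?_⟩
      by_contra hcon
      have := hN (Function.mem_support.mpr hcon)
      omega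
    induction N generalizing c d with
    | zero =>
      have h0 : c = 0 := by
        refine cc_ext E fun j => ?_
        rw [cc_zero]
        by_cases hj : j < A
        · exact hA j hj
        · exact hN j (by push_cast; omega)
      exact ⟨0, by rw [h0, Matrix.mulVec_zero]⟩
    | succ N ih =>
      have h3 : D0 (n + 1) *ᵥ cc E c (A + N) = 0 := by
        rw [← cc_mulVec, h1, cc_zero]
      have h4 : U (n + 1) *ᵥ cc E c (A + N) = D1 n *ᵥ cc E d (A + N) := by
        have h5 := cc_Phi E U V (n + 1) c (A + N)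
        rw [h2, cc_mulVec, hN (A + N + 1) (by push_cast; omega), Matrix.mulVec_zero] at h5
        have h6 : (fun i : I1 (n + 1) => (E.sig ^ (-1 : ℤ)) ((0 : I1 (n + 1) → R) i)) = 0 := by
          funext i; exact map_zero _
        rw [h6, sub_zero] at h5
        exact h5.symm
      obtain ⟨b, hb⟩ := h _ _ h3 h4
      obtain ⟨B, hB⟩ := exists_col E (fun j => if j = A + N then b else 0)
        ((Set.finite_singleton (A + (N : ℤ))).subset (by
          intro j hj
          by_contra hcon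
          exact hj (if_neg hcon)))
      have hS : ∀ n, (D0 (n + 1)).map E.iota * (D0 n).map E.iota = 0 := by
        intro n
        rw [← Matrix.map_mul, hDD, Matrix.map_zero _ (map_zero _)]
      obtain ⟨c', hc'⟩ := ih (c - (D0 n).map E.iota *ᵥ B) (d - Phi E U V n *ᵥ B)
        (by rw [Matrix.mulVec_sub, h1, Matrix.mulVec_mulVec, hS, Matrix.zero_mulVec, sub_zero])
        (by rw [Matrix.mulVec_sub, Matrix.mulVec_sub, h2, Matrix.mulVec_mulVec, Matrix.mulVec_mulVec,
              hPhi])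
        (by
          intro j hj
          rw [cc_sub, cc_mulVec, hB, if_neg (by omega), Matrix.mulVec_zero, sub_zero, hA j hj])
        (by
          intro j hj
          rw [cc_sub, cc_mulVec, hB]
          by_cases hj' : j = A + N
          · rw [if_pos hj', hb, hj', sub_self]
          · rw [if_neg hj', Matrix.mulVec_zero, sub_zero]
            exact hN j (by push_cast; omega))
      refine ⟨c' + B, ?_⟩
      rw [Matrix.mulVec_add, hc']
      abel

theorem JE_S (D0 : ∀ n, Matrix (I0 (n + 1)) (I0 n) R) (D1 : ∀ n, Matrix (I1 (n + 1)) (I1 n) R)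
    (U V : ∀ n, Matrix (I1 n) (I0 n) R) (hU : ∀ n, D1 n * U n = U (n + 1) * D0 n)
    (hV : ∀ n, (D1 n).map (E.sig : R →+* R) * V n = V (n + 1) * D0 n)
    (hDD : ∀ n, D0 (n + 1) * D0 n = 0) (n : ℕ) (h : JE D0 D1 U n) :
    JE (fun n => (D0 n).map E.iota) (fun n => (D1 n).map E.iota) (Phi E U V) n :=
  JE_S' E D0 D1 U V (Phi_comm E D0 D1 U V hU hV) hDD n h

end JS

section cone
variable {R : Type u} {S : Type v} [Ring R] [Ring S] (E : SkL R S)
  {K : Type w} [AddCommGroup K] [Module R K] [Module S K]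
  (hc : ∀ (r : R) (x : K), r • x = E.iota r • x)

theorem MRes.e_sum {M : Type w} [AddCommGroup M] [Module R M] (P : MRes R M) (x : P.I 0 → R) :
    P.e x = ∑ i, x i • P.e (Pi.single i 1) := by
  have e1 : x = ∑ i, x i • (Pi.single i 1 : P.I 0 → R) := by
    funext j
    simp [Finset.sum_apply, Pi.single_apply]
  conv_lhs => rw [e1]
  rw [map_sum]
  exact Finset.sum_congr rfl fun i _ => by rw [map_smul]

/-- the augmentation of the free `S`-module on a generating system of `K0` -/
noncomputable def et {K0 : Submodule R K} (P0 : MRes R K0) : (P0.I 0 → S) →ₗ[S] K :=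
  Fintype.linearCombination S (fun i => ((P0.e (Pi.single i 1) : K0) : K))

include hc in
theorem et_iota {K0 : Submodule R K} (P0 : MRes R K0) (x : P0.I 0 → R) :
    et (S := S) P0 (fun i => E.iota (x i)) = ((P0.e x : K0) : K) := by
  rw [et, Fintype.linearCombination_apply, P0.e_sum, AddSubmonoidClass.coe_finsetSum]
  refine Finset.sum_congr rfl fun i _ => ?_
  rw [Submodule.coe_smul, hc]

theorem sum_co (s : S) (T : Finset ℤ) (hT : ∀ j, j ∉ T → E.co s j = 0) :
    s = ∑ j ∈ T, ((E.z ^ j : Sˣ) : S) * E.iota (E.co s j) := by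
  classical
  refine E.ext_co fun k => ?_
  rw [co_sum]
  simp only [E.co_single]
  by_cases hk : k ∈ T
  · rw [Finset.sum_eq_single k]
    · rw [Finsupp.single_eq_same]
    · intro j _ hj
      rw [Finsupp.single_eq_of_ne (Ne.symm hj)]
    · intro h
      exact absurd hk h
  · rw [hT k hk]
    symm
    refine Finset.sum_eq_zero fun j hj => ?_
    have : j ≠ k := fun h => hk (h ▸ hj)
    rw [Finsupp.single_eq_of_ne (Ne.symm this)]

include hc in
/-- the coefficient formula of the augmentation -/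
theorem et_coef {K0 : Submodule R K} (P0 : MRes R K0) (x : P0.I 0 → S) (T : Finset ℤ)
    (hT : ∀ j, j ∉ T → rc E x j = 0) :
    et P0 x = ∑ j ∈ T, (E.semi hc).pw j ((P0.e (rc E x j) : K0) : K) := by
  have h1 : ∀ i, x i = ∑ j ∈ T, ((E.z ^ j : Sˣ) : S) * E.iota (E.co (x i) j) := fun i =>
    sum_co E (x i) T fun j hj => congrFun (hT j hj) i
  rw [et, Fintype.linearCombination_apply]
  have h2 : ∀ i, x i • ((P0.e (Pi.single i 1) : K0) : K) =
      ∑ j ∈ T, (((E.z ^ j : Sˣ) : S) * E.iota (E.co (x i) j)) •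
        ((P0.e (Pi.single i 1) : K0) : K) := by
    intro i
    conv_lhs => rw [h1 i]
    rw [Finset.sum_smul]
  rw [Finset.sum_congr rfl fun i _ => h2 i, Finset.sum_comm]
  refine Finset.sum_congr rfl fun j _ => ?_
  rw [SkL.semi_pw, P0.e_sum, AddSubmonoidClass.coe_finsetSum, Finset.smul_sum]
  refine Finset.sum_congr rfl fun i _ => ?_
  rw [Submodule.coe_smul, hc, ← mul_smul]
  rfl

/-- the inclusion `K1 → K0` -/
def inc (K0 : Submodule R K) : (E.semi hc).sub1 K0 →ₗ[R] K0 :=
  Submodule.inclusion (fun x hx => (((E.semi hc).mem_sub1 K0 x).mp hx).1)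

/-- multiplication by `z` as a map `K1 → K0` -/
noncomputable def zin (K0 : Submodule R K) : (E.semi hc).sub1 K0 →+ K0 where
  toFun x := ⟨(E.semi hc).pw 1 (x : K), (((E.semi hc).mem_sub1 K0 x).mp x.2).2⟩
  map_zero' := by
    apply Subtype.ext
    simp
  map_add' x y := by
    apply Subtype.ext
    simp

theorem zin_smul (K0 : Submodule R K) (r : R) (x : (E.semi hc).sub1 K0) :
    zin E hc K0 (r • x) = E.sig r • zin E hc K0 x := by
  apply Subtype.ext
  show (E.semi hc).pw 1 (r • (x : K)) = E.sig r • (E.semi hc).pw 1 (x : K)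
  rw [Semi.pw_smul, zpow_one]
  rfl

/-- exactness at the beginning of the cone over `S` -/
theorem scone_core (K0 : Submodule R K) (hgood : (E.semi hc).Good K0)
    (hspan : Submodule.span S (K0 : Set K) = ⊤) (P0 : MRes R K0)
    (P1 : MRes R ((E.semi hc).sub1 K0)) (U V : ∀ n, Matrix (P1.I n) (P0.I n) R)
    (hU0' : ∀ t : P1.I 0 → R, P0.e (t ᵥ* U 0) = inc E hc K0 (P1.e t))
    (hV0' : ∀ t : P1.I 0 → R, P0.e ((fun i => E.sig (t i)) ᵥ* V 0) = zin E hc K0 (P1.e t)) :
    Function.Surjective (et (S := S) P0) ∧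
    (∀ x, et (S := S) P0 x = 0 ↔ ∃ (y : P0.I 1 → S) (t : P1.I 0 → S),
      y ᵥ* (P0.D 0).map E.iota + t ᵥ* Phi E U V 0 = x) ∧
    ∀ (y : P0.I 1 → S) (t : P1.I 0 → S),
      y ᵥ* (P0.D 0).map E.iota + t ᵥ* Phi E U V 0 = 0 →
      ∃ y' : P1.I 1 → S, y' ᵥ* (P1.D 0).map E.iota = t := by
  classical
  -- the rows of the matrices are in the kernel of the augmentation
  have hsingle : ∀ i : P1.I 0, (Pi.single i 1 : P1.I 0 → R) ᵥ* U 0 = U 0 i := by
    intro i
    rw [Matrix.single_one_vecMul]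
    rfl
  have hrow : ∀ i : P1.I 0, et P0 (Phi E U V 0 i) = 0 := by
    intro i
    have h1 : (Phi E U V 0 i) = (fun k => E.iota (U 0 i k)) -
        ((E.z⁻¹ : Sˣ) : S) • (fun k => E.iota (V 0 i k)) := rfl
    have h2 : P0.e (U 0 i) = inc E hc K0 (P1.e (Pi.single i 1)) := by
      rw [← hU0', hsingle]
    have h3 : P0.e (V 0 i) = zin E hc K0 (P1.e (Pi.single i 1)) := by
      rw [← hV0']
      congr 1
      have h4 : (fun k => E.sig ((Pi.single i 1 : P1.I 0 → R) k)) = Pi.single i 1 := by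
        funext k
        by_cases h : k = i
        · subst h; simp
        · simp [h]
      rw [h4, Matrix.single_one_vecMul]
      rfl
    rw [h1, map_sub, map_smul, et_iota E hc, et_iota E hc, h2, h3]
    show ((P1.e (Pi.single i 1) : (E.semi hc).sub1 K0) : K) - ((E.z⁻¹ : Sˣ) : S) •
      (E.semi hc).pw 1 ((P1.e (Pi.single i 1) : (E.semi hc).sub1 K0) : K) = 0
    rw [SkL.semi_pw, zpow_one, ← mul_smul, Units.inv_mul, one_smul, sub_self]
  have hrow0 : ∀ i : P0.I 1, et P0 (((P0.D 0).map E.iota) i) = 0 := by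
    intro i
    have h1 : ((P0.D 0).map E.iota) i = fun k => E.iota (P0.D 0 i k) := rfl
    rw [h1, et_iota E hc, P0.De]
    rfl
  have hsurj : Function.Surjective (et (S := S) P0) := by
    rw [← LinearMap.range_eq_top, eq_top_iff, ← hspan, Submodule.span_le]
    intro x hx
    obtain ⟨y, hy⟩ := P0.surj ⟨x, hx⟩
    refine ⟨fun i => E.iota (y i), ?_⟩
    rw [et_iota E hc, hy]
  have he : ∀ x, et (S := S) P0 x = 0 ↔ ∃ (y : P0.I 1 → S) (t : P1.I 0 → S),
      y ᵥ* (P0.D 0).map E.iota + t ᵥ* Phi E U V 0 = x := by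
    intro x
    constructor
    · intro hx
      let F : ℤ →₀ K := Finsupp.ofSupportFinite (fun j => ((P0.e (rc E x j) : K0) : K))
        ((rc_finite E x).subset (by
          intro j hj h
          refine hj ?_
          show ((P0.e (rc E x j) : K0) : K) = 0
          rw [h, map_zero]
          rfl))
      have hF : F.sum (fun j a => (E.semi hc).pw j a) = 0 := by
        rw [← hx, et_coef E hc P0 x (rc_finite E x).toFinset]
        · rw [Finsupp.sum_of_support_subset F (s := (rc_finite E x).toFinset)]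
          · rfl
          · intro j hj
            rw [Set.Finite.mem_toFinset, Function.mem_support]
            intro h
            rw [Finsupp.mem_support_iff] at hj
            refine hj ?_
            show ((P0.e (rc E x j) : K0) : K) = 0
            rw [h, map_zero]
            rfl
          · intro j _
            exact map_zero _
        · intro j hj
          rw [Set.Finite.mem_toFinset, Function.mem_support, not_not] at hj
          exact hj
      obtain ⟨y, hy1, hy2⟩ := (E.semi hc).exact_mid hgood F (fun j => (P0.e (rc E x j)).2) hF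
      have hch : ∀ j, ∃ t : P1.I 0 → R, P1.e t = ⟨y j, hy1 j⟩ := fun j => P1.surj _
      choose t ht using hch
      obtain ⟨t', ht'⟩ := exists_row E (fun j => if y j = 0 then 0 else t j)
        (y.hasFiniteSupport.subset (by
          intro j hj h
          exact hj (if_pos h)))
      have ht2 : ∀ j, P1.e (rc E t' j) = ⟨y j, hy1 j⟩ := by
        intro j
        rw [ht']
        by_cases h0 : y j = 0
        · rw [if_pos h0, map_zero]
          exact Subtype.ext h0.symm
        · rw [if_neg h0, ht]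
      obtain ⟨y', hy'⟩ := row_lift E (P0.D 0) (x - t' ᵥ* Phi E U V 0) (by
        intro j
        rw [← P0.ex0, rc_sub, rc_Phi, map_sub, map_sub, hU0']
        have h5 := hV0' (rc E t' (j + 1))
        rw [h5]
        apply Subtype.ext
        show ((P0.e (rc E x j) : K0) : K) - (((P1.e (rc E t' j) : (E.semi hc).sub1 K0) : K) -
          (E.semi hc).pw 1 ((P1.e (rc E t' (j + 1)) : (E.semi hc).sub1 K0) : K)) = 0
        rw [ht2, ht2]
        have h6 := hy2 j
        show F j - _ = 0
        rw [h6, sub_self])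
      exact ⟨y', t', by rw [hy']; abel⟩
    · rintro ⟨y, t, rfl⟩
      rw [map_add, Matrix.vecMul_eq_sum, Matrix.vecMul_eq_sum, map_sum, map_sum]
      rw [Finset.sum_eq_zero, Finset.sum_eq_zero, add_zero]
      · intro i _
        rw [map_smul, hrow, smul_zero]
      · intro i _
        rw [map_smul, hrow0, smul_zero]
  have hinj : ∀ (y : P0.I 1 → S) (t : P1.I 0 → S),
      y ᵥ* (P0.D 0).map E.iota + t ᵥ* Phi E U V 0 = 0 →
      ∃ y' : P1.I 1 → S, y' ᵥ* (P1.D 0).map E.iota = t := by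
    intro y t h
    refine row_lift E (P1.D 0) t fun j => ?_
    rw [← P1.ex0]
    let Y : ℤ →₀ K := Finsupp.ofSupportFinite
      (fun j => ((P1.e (rc E t j) : (E.semi hc).sub1 K0) : K))
      ((rc_finite E t).subset (by
        intro j hj h
        refine hj ?_
        show ((P1.e (rc E t j) : (E.semi hc).sub1 K0) : K) = 0
        rw [h, map_zero]
        rfl))
    have hY : Y = 0 := by
      refine (E.semi hc).exact_inj Y fun j => ?_
      have h1 := congrArg (fun s => rc E s j) h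
      simp only [rc_add, rc_zero, rc_vecMul, rc_Phi] at h1
      have h2 := congrArg P0.e h1
      rw [map_add, map_sub, map_zero, (P0.ex0 _).mpr ⟨_, rfl⟩, zero_add, hU0'] at h2
      have h5 := hV0' (rc E t (j + 1))
      rw [h5] at h2
      exact congrArg Subtype.val h2
    have h3 : Y j = 0 := by rw [hY]; rfl
    exact Subtype.ext h3
  exact ⟨hsurj, he, hinj⟩

/-- The resolution over `S`: the cone. -/
theorem exists_SCone (K0 : Submodule R K) (hgood : (E.semi hc).Good K0)
    (hspan : Submodule.span S (K0 : Set K) = ⊤) (P0 : MRes R K0)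
    (P1 : MRes R ((E.semi hc).sub1 K0)) :
    ∃ (U : ∀ n, Matrix (P1.I n) (P0.I n) R) (Q : MRes S K),
      (∀ t : P1.I 0 → R, P0.e (t ᵥ* U 0) = inc E hc K0 (P1.e t)) ∧
      (∀ n, P1.D n * U n = U (n + 1) * P0.D n) ∧
      ∀ n, JE P0.D P1.D U n → (∀ m, n = m + 1 → DE P1.D m) → DE Q.D n := by
  classical
  obtain ⟨U, hU0, hU⟩ := exists_lift P0 P1 (RingHom.id R) (inc E hc K0).toAddMonoidHom
    (fun r x => map_smul (inc E hc K0) r x)
  obtain ⟨V, hV0, hV⟩ := exists_lift P0 P1 (E.sig : R →+* R) (zin E hc K0)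
    (fun r x => zin_smul E hc K0 r x)
  have hU0' : ∀ t : P1.I 0 → R, P0.e (t ᵥ* U 0) = inc E hc K0 (P1.e t) := hU0
  have hU' : ∀ n, P1.D n * U n = U (n + 1) * P0.D n := by
    intro n
    have h := hU n
    rwa [show (P1.D n).map (RingHom.id R) = P1.D n from Matrix.map_id _] at h
  have hV0' : ∀ t : P1.I 0 → R, P0.e ((fun i => E.sig (t i)) ᵥ* V 0) = zin E hc K0 (P1.e t) := hV0
  obtain ⟨hsurj, he, hinj⟩ := scone_core E hc K0 hgood hspan P0 P1 U V hU0' hV0'
  refine ⟨U, coneRes (fun n => (P0.D n).map E.iota) (fun n => (P1.D n).map E.iota) (Phi E U V)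
    (Phi_comm E P0.D P1.D U V hU' hV) (fun n x => rows_S E _ _ (P0.exs n) x)
    (fun n x => rows_S E _ _ (P1.exs n) x) (et P0) hsurj he hinj, hU0', hU', ?_⟩
  intro n hJ h1
  exact DE_cone (fun n => (P0.D n).map E.iota) (fun n => (P1.D n).map E.iota) (Phi E U V)
    (Phi_comm E P0.D P1.D U V hU' hV) n (JE_S E P0.D P1.D U V hU' hV P0.DD n hJ)
    (fun m hm => DE_S E P1.D m (h1 m hm))

end cone

section Rcone
variable {R : Type u} [Ring R] {M0 M1 M : Type w} [AddCommGroup M0] [Module R M0]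
  [AddCommGroup M1] [Module R M1] [AddCommGroup M] [Module R M]

/-- the cone of a lift of an injective map resolves the cokernel -/
theorem exists_RCone (P0 : MRes R M0) (P1 : MRes R M1) (f : M1 →ₗ[R] M0) (g : M0 →ₗ[R] M)
    (hf : Function.Injective f) (hg : Function.Surjective g) (hfg : Function.Exact f g)
    (U : ∀ n, Matrix (P1.I n) (P0.I n) R)
    (hU0 : ∀ t : P1.I 0 → R, P0.e (t ᵥ* U 0) = f (P1.e t))
    (hU : ∀ n, P1.D n * U n = U (n + 1) * P0.D n) :
    ∃ Q : MRes R M, ∀ n, DE Q.D n → JE P0.D P1.D U n := by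
  refine ⟨coneRes P0.D P1.D U hU P0.exs P1.exs (g ∘ₗ P0.e) ?_ ?_ ?_, ?_⟩
  · exact hg.comp P0.surj
  · intro x
    rw [LinearMap.comp_apply, hfg (P0.e x)]
    constructor
    · rintro ⟨y, hy⟩
      obtain ⟨t, rfl⟩ := P1.surj y
      have h1 : P0.e (x - t ᵥ* U 0) = 0 := by rw [map_sub, hU0, hy, sub_self]
      obtain ⟨y', hy'⟩ := (P0.ex0 _).mp h1
      exact ⟨y', t, by rw [hy']; abel⟩
    · rintro ⟨y, t, rfl⟩
      refine ⟨P1.e t, ?_⟩
      rw [map_add, (P0.ex0 _).mpr ⟨y, rfl⟩, zero_add, hU0]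
  · intro y t h
    rw [← P1.ex0]
    apply hf
    rw [map_zero, ← hU0]
    have h1 := congrArg P0.e h
    rw [map_add, map_zero, (P0.ex0 _).mpr ⟨y, rfl⟩, zero_add] at h1
    exact h1
  · intro n h
    exact JE_of_cone P0.D P1.D U n h

end Rcone

end Pool.Agent.UP94
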