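import Mathlib
set_option autoImplicit false

/-! Tank UP (MP_98022b_gt), row R5 (helper94): good lattices.
`S` is a ring with a unit `z` normalizing (the image of) a left noetherian ring `R`:
`z ι(r) = ι(σ r) z`. For an `S`-module `K` and a finitely generated `R`-submodule `L` there is `m0`
such that for `m ≥ m0` the lattice `K0 = L + z L + ... + z^m L` satisfies
`K0 ∩ (z K0 + z^2 K0 + ...) ⊆ z K0`; hence the coefficient form of the exact sequence
`0 → S ⊗ K1 → S ⊗ K0 → K → 0`, `K1 = {x ∈ K0 : z x ∈ K0}`, for every such `K0` which generates. -/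

namespace Pool.Agent.UP94

universe u v w

section Lat

variable {R : Type u} {S : Type v} [Ring R] [Ring S] (ι : R →+* S)

/-- units of `S` normalizing the image of `R` -/
def NU : Subgroup Sˣ where
  carrier := {w | ∃ τ : R ≃+* R, ∀ r : R, (w : S) * ι r = ι (τ r) * (w : S)}
  one_mem' := ⟨RingEquiv.refl R, fun r => by simp⟩
  mul_mem' := by
    rintro a b ⟨s, hs⟩ ⟨t, ht⟩
    refine ⟨t.trans s, fun r => ?_⟩
    show ((a * b : Sˣ) : S) * ι r = ι (s (t r)) * ((a * b : Sˣ) : S)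
    rw [Units.val_mul, mul_assoc, ht, ← mul_assoc, hs, mul_assoc]
  inv_mem' := by
    rintro a ⟨s, hs⟩
    refine ⟨s.symm, fun r => ?_⟩
    have h := hs (s.symm r)
    rw [RingEquiv.apply_symm_apply] at h
    calc ((a⁻¹ : Sˣ) : S) * ι r = ((a⁻¹ : Sˣ) : S) * (ι r * (a : S)) * ((a⁻¹ : Sˣ) : S) := by
          rw [mul_assoc, mul_assoc, Units.mul_inv, mul_one]
      _ = ((a⁻¹ : Sˣ) : S) * ((a : S) * ι (s.symm r)) * ((a⁻¹ : Sˣ) : S) := by rw [h]
      _ = ι (s.symm r) * ((a⁻¹ : Sˣ) : S) := by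
          rw [← mul_assoc, Units.inv_mul, one_mul]

variable {K : Type w} [AddCommGroup K] [Module R K] [Module S K]

/-- the submodule `w L` -/
def tw (hc : ∀ (r : R) (x : K), r • x = ι r • x) (w : NU ι) (L : Submodule R K) :
    Submodule R K where
  carrier := {y | ((w : Sˣ)⁻¹ : Sˣ) • y ∈ L}
  add_mem' := by
    intro a b ha hb
    show _ • (a + b) ∈ L
    rw [smul_add]
    exact L.add_mem ha hb
  zero_mem' := by simp
  smul_mem' := by
    intro r y hy
    obtain ⟨s, hs⟩ := (w⁻¹).2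
    have h : (((w : Sˣ)⁻¹ : Sˣ)) • (r • y) = (s r) • (((w : Sˣ)⁻¹ : Sˣ) • y) := by
      rw [hc, hc, Units.smul_def, Units.smul_def, smul_smul, smul_smul]
      exact congrArg (fun t => t • y) (hs r)
    show (((w : Sˣ)⁻¹ : Sˣ)) • (r • y) ∈ L
    rw [h]
    exact L.smul_mem _ hy

variable {ι} (hc : ∀ (r : R) (x : K), r • x = ι r • x)

theorem mem_tw {w : NU ι} {L : Submodule R K} {y : K} :
    y ∈ tw ι hc w L ↔ ((w : Sˣ)⁻¹ : Sˣ) • y ∈ L := Iff.rfl

theorem smul_mem_tw {w : NU ι} {L : Submodule R K} {y : K} (hy : y ∈ L) :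
    (w : Sˣ) • y ∈ tw ι hc w L := by
  rw [mem_tw, inv_smul_smul]
  exact hy

theorem tw_one (L : Submodule R K) : tw ι hc 1 L = L := by
  ext y
  rw [mem_tw]
  simp

theorem tw_mul (a b : NU ι) (L : Submodule R K) : tw ι hc (a * b) L = tw ι hc a (tw ι hc b L) := by
  ext y
  rw [mem_tw, mem_tw, mem_tw, smul_smul]
  simp [mul_inv_rev]

theorem tw_mono (a : NU ι) {L M : Submodule R K} (h : L ≤ M) : tw ι hc a L ≤ tw ι hc a M :=
  fun _ hy => h hy

theorem tw_le_iff (a : NU ι) {L M : Submodule R K} : tw ι hc a L ≤ M ↔ L ≤ tw ι hc a⁻¹ M := by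
  constructor
  · intro h
    have h2 := tw_mono hc a⁻¹ h
    rw [← tw_mul, inv_mul_cancel, tw_one] at h2
    exact h2
  · intro h
    have h2 := tw_mono hc a h
    rw [← tw_mul, mul_inv_cancel, tw_one] at h2
    exact h2

theorem tw_iSup {I : Type*} (a : NU ι) (f : I → Submodule R K) :
    tw ι hc a (⨆ i, f i) = ⨆ i, tw ι hc a (f i) := by
  apply le_antisymm
  · rw [tw_le_iff]
    apply iSup_le
    intro i
    rw [← tw_le_iff]
    exact le_iSup (fun i => tw ι hc a (f i)) i
  · exact iSup_le fun i => tw_mono hc a (le_iSup f i)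

theorem tw_sup (a : NU ι) (L M : Submodule R K) :
    tw ι hc a (L ⊔ M) = tw ι hc a L ⊔ tw ι hc a M := by
  rw [sup_eq_iSup, tw_iSup, sup_eq_iSup]
  congr 1
  ext b
  cases b <;> rfl

/-- `z^a L + ... + z^b L` -/
def Sm (z : NU ι) (L : Submodule R K) (a b : ℤ) : Submodule R K :=
  ⨆ j : {j : ℤ // a ≤ j ∧ j ≤ b}, tw ι hc (z ^ j.1) L

theorem le_Sm (z : NU ι) (L : Submodule R K) {a b j : ℤ} (h1 : a ≤ j) (h2 : j ≤ b) :
    tw ι hc (z ^ j) L ≤ Sm hc z L a b :=
  le_iSup (fun j : {j : ℤ // a ≤ j ∧ j ≤ b} => tw ι hc (z ^ j.1) L) ⟨j, h1, h2⟩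

theorem Sm_le (z : NU ι) {L M : Submodule R K} {a b : ℤ}
    (h : ∀ j, a ≤ j → j ≤ b → tw ι hc (z ^ j) L ≤ M) : Sm hc z L a b ≤ M :=
  iSup_le fun j => h j.1 j.2.1 j.2.2

theorem Sm_mono (z : NU ι) (L : Submodule R K) {a b a' b' : ℤ} (h1 : a' ≤ a) (h2 : b ≤ b') :
    Sm hc z L a b ≤ Sm hc z L a' b' :=
  Sm_le hc z fun _ h3 h4 => le_Sm hc z L (h1.trans h3) (h4.trans h2)

theorem tw_Sm (z : NU ι) (L : Submodule R K) (i a b : ℤ) :
    tw ι hc (z ^ i) (Sm hc z L a b) = Sm hc z L (a + i) (b + i) := by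
  apply le_antisymm
  · rw [tw_le_iff]
    refine Sm_le hc z fun j h1 h2 => ?_
    rw [← tw_le_iff, ← tw_mul, ← zpow_add]
    exact le_Sm hc z L (by omega) (by omega)
  · refine Sm_le hc z fun j h1 h2 => ?_
    have e : z ^ j = z ^ i * z ^ (j - i) := by rw [← zpow_add]; congr 1; ring
    rw [e, tw_mul]
    exact tw_mono hc _ (le_Sm hc z L (by omega) (by omega))

theorem Sm_Sm (z : NU ι) (L : Submodule R K) {a b a' b' : ℤ} (h : a' ≤ b') (h' : a ≤ b) :
    Sm hc z (Sm hc z L a b) a' b' = Sm hc z L (a + a') (b + b') := by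
  apply le_antisymm
  · refine Sm_le hc z fun j h1 h2 => ?_
    rw [tw_Sm]
    exact Sm_mono hc z L (by omega) (by omega)
  · refine Sm_le hc z fun j h1 h2 => ?_
    by_cases h3 : j ≤ b + a'
    · refine le_trans ?_ (le_Sm hc z _ (j := a') le_rfl h)
      rw [tw_Sm]
      exact le_Sm hc z L (by omega) (by omega)
    · refine le_trans ?_ (le_Sm hc z _ (j := j - b) (by omega) (by omega))
      rw [tw_Sm]
      exact le_Sm hc z L (by omega) (by omega)

/-- a good lattice: `K0 ∩ (z K0 + z^2 K0 + ...) ⊆ z K0` -/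
def IsGoodLat (z : NU ι) (K0 : Submodule R K) : Prop :=
  ∀ n : ℤ, K0 ⊓ Sm hc z K0 1 n ≤ tw ι hc z K0

/-- Existence of good lattices. -/
theorem exists_good [IsNoetherianRing R] (z : NU ι) (L : Submodule R K) (hL : L.FG) :
    ∃ m0 : ℕ, ∀ m : ℕ, m0 ≤ m → IsGoodLat hc z (Sm hc z L 0 m) := by
  have : Module.Finite R L := Module.Finite.iff_fg.mpr hL
  have : IsNoetherian R L := isNoetherian_of_isNoetherianRing_of_finite R L
  let f : ℕ →o Submodule R L :=
    ⟨fun n => (Sm hc z L 1 n).comap L.subtype, fun a b hab =>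
      Submodule.comap_mono (Sm_mono hc z L le_rfl (by exact_mod_cast hab))⟩
  obtain ⟨n0, hn0⟩ := monotone_stabilizes_iff_noetherian.mpr ‹IsNoetherian R L› f
  have key : ∀ n : ℤ, ∀ l ∈ L, l ∈ Sm hc z L 1 n → l ∈ Sm hc z L 1 n0 := by
    intro n l hl hln
    have h1 : (⟨l, hl⟩ : L) ∈ f (max n0 n.toNat) := by
      show l ∈ Sm hc z L 1 ((max n0 n.toNat : ℕ) : ℤ)
      refine Sm_mono hc z L le_rfl ?_ hln
      have := Int.self_le_toNat n
      push_cast
      omega
    rw [← hn0 (max n0 n.toNat) (le_max_left _ _)] at h1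
    exact h1
  refine ⟨n0, fun m hm n => ?_⟩
  rintro x ⟨hx0, hx1⟩
  have e0 : Sm hc z L 0 m = L ⊔ Sm hc z L 1 m := by
    apply le_antisymm
    · refine Sm_le hc z fun j h1 h2 => ?_
      by_cases hj : j = 0
      · rw [hj, zpow_zero, tw_one]
        exact le_sup_left
      · exact (le_Sm hc z L (by omega) h2).trans le_sup_right
    · refine sup_le ?_ (Sm_mono hc z L (by omega) le_rfl)
      have := le_Sm hc z L (j := 0) (a := 0) (b := m) le_rfl (by omega)
      rwa [zpow_zero, tw_one] at this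
  have e1 : tw ι hc z (Sm hc z L 0 m) = Sm hc z L 1 (m + 1) := by
    have := tw_Sm hc z L 1 0 m
    rwa [zpow_one, zero_add] at this
  rw [e1]
  by_cases hn : 1 ≤ n
  · rw [Sm_Sm hc z L hn (by omega)] at hx1
    rw [zero_add] at hx1
    have hx0' : x ∈ L ⊔ Sm hc z L 1 m := by
      rw [← e0]
      exact hx0
    obtain ⟨l, hl, x', hx', rfl⟩ := Submodule.mem_sup.mp hx0'
    have h2 : l ∈ Sm hc z L 1 (m + n) := by
      have h3 : l = (l + x') - x' := by abel
      rw [h3]
      exact Submodule.sub_mem _ hx1 (Sm_mono hc z L le_rfl (by omega) hx')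
    have h4 := key _ l hl h2
    exact Submodule.add_mem _ (Sm_mono hc z L le_rfl (by omega) h4)
      (Sm_mono hc z L le_rfl (by omega) hx')
  · have hbot : Sm hc z (Sm hc z L 0 m) 1 n = ⊥ := by
      rw [eq_bot_iff]
      exact Sm_le hc z fun j h1 h2 => absurd h2 (by omega)
    have hx1' : x ∈ Sm hc z (Sm hc z L 0 m) 1 n := hx1
    rw [hbot, Submodule.mem_bot] at hx1'
    rw [hx1']
    exact Submodule.zero_mem _

theorem IsGoodLat.zpow_mem {z : NU ι} {K0 : Submodule R K} {x : K} (hx : x ∈ K0) (j : ℤ) :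
    ((z : Sˣ) ^ j) • x ∈ tw ι hc (z ^ j) K0 := by
  have := smul_mem_tw hc (w := z ^ j) hx
  simpa using this

/-- Exactness in the middle, in coefficients. -/
theorem IsGoodLat.exact_mid {z : NU ι} {K0 : Submodule R K} (hg : IsGoodLat hc z K0) (x : ℤ →₀ K)
    (hx : ∀ j, x j ∈ K0) (h0 : (x.sum fun j k => ((z : Sˣ) ^ j) • k) = 0) :
    ∃ y : ℤ →₀ K, (∀ j, y j ∈ K0) ∧ (∀ j, (z : Sˣ) • y j ∈ K0) ∧
      ∀ j, x j = y j - (z : Sˣ) • y (j + 1) := by
  classical
  -- bounds of the support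
  obtain ⟨b, hb⟩ : ∃ b : ℕ, ∀ j ∈ x.support, -(b : ℤ) < j ∧ j < b := by
    refine ⟨x.support.sup (fun j => j.natAbs + 1), fun j hj => ?_⟩
    have h1 : j.natAbs + 1 ≤ x.support.sup (fun j => j.natAbs + 1) :=
      Finset.le_sup (f := fun j : ℤ => j.natAbs + 1) hj
    omega
  have hxb : ∀ j : ℤ, (b : ℤ) ≤ j → x j = 0 := by
    intro j hj
    by_contra hne
    have := (hb j (Finsupp.mem_support_iff.mpr hne)).2
    omega
  have hxb' : ∀ j : ℤ, j ≤ -(b : ℤ) → x j = 0 := by
    intro j hj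
    by_contra hne
    have := (hb j (Finsupp.mem_support_iff.mpr hne)).1
    omega
  -- the partial sums
  let g : ℤ → K := fun j => ∑ i ∈ x.support.filter (fun i => j ≤ i), ((z : Sˣ) ^ (i - j)) • x i
  have hg1 : ∀ j, g j = x j + (z : Sˣ) • g (j + 1) := by
    intro j
    show ∑ i ∈ x.support.filter (fun i => j ≤ i), ((z : Sˣ) ^ (i - j)) • x i =
      x j + (z : Sˣ) • ∑ i ∈ x.support.filter (fun i => j + 1 ≤ i), ((z : Sˣ) ^ (i - (j + 1))) • x i
    rw [Finset.smul_sum]
    have e1 : ∀ i ∈ x.support.filter (fun i => j + 1 ≤ i),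
        (z : Sˣ) • ((z : Sˣ) ^ (i - (j + 1))) • x i = ((z : Sˣ) ^ (i - j)) • x i := by
      intro i _
      rw [smul_smul, ← zpow_one_add]
      congr 2
      ring
    rw [Finset.sum_congr rfl e1]
    by_cases hj : j ∈ x.support
    · have e2 : x.support.filter (fun i => j ≤ i) =
          insert j (x.support.filter (fun i => j + 1 ≤ i)) := by
        ext i
        simp only [Finset.mem_filter, Finset.mem_insert]
        constructor
        · rintro ⟨h1, h2⟩
          by_cases hij : i = j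
          · exact Or.inl hij
          · exact Or.inr ⟨h1, by omega⟩
        · rintro (h1 | ⟨h1, h2⟩)
          · exact ⟨h1 ▸ hj, h1 ▸ le_rfl⟩
          · exact ⟨h1, by omega⟩
      rw [e2, Finset.sum_insert (by simp)]
      simp
    · have e2 : x.support.filter (fun i => j ≤ i) = x.support.filter (fun i => j + 1 ≤ i) := by
        ext i
        simp only [Finset.mem_filter]
        constructor
        · rintro ⟨h1, h2⟩
          refine ⟨h1, ?_⟩
          have : i ≠ j := fun h => hj (h ▸ h1)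
          omega
        · rintro ⟨h1, h2⟩
          exact ⟨h1, by omega⟩
      rw [e2, Finsupp.notMem_support_iff.mp hj, zero_add]
  have hglow : ∀ j : ℤ, j ≤ -(b : ℤ) → g j = 0 := by
    intro j hj
    have e1 : x.support.filter (fun i => j ≤ i) = x.support := by
      apply Finset.filter_true_of_mem
      intro i hi
      have := (hb i hi).1
      omega
    show ∑ i ∈ x.support.filter (fun i => j ≤ i), ((z : Sˣ) ^ (i - j)) • x i = 0
    rw [e1]
    have e2 : ∀ i ∈ x.support, ((z : Sˣ) ^ (i - j)) • x i = ((z : Sˣ) ^ (-j)) • ((z : Sˣ) ^ i) • x i := by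
      intro i _
      rw [smul_smul, ← zpow_add]
      congr 2
      ring
    rw [Finset.sum_congr rfl e2, ← Finset.smul_sum]
    have e3 : ∑ i ∈ x.support, ((z : Sˣ) ^ i) • x i = 0 := h0
    rw [e3, smul_zero]
  have hghigh : ∀ j : ℤ, (b : ℤ) ≤ j → g j = 0 := by
    intro j hj
    have e1 : x.support.filter (fun i => j ≤ i) = ∅ := by
      apply Finset.filter_false_of_mem
      intro i hi
      have := (hb i hi).2
      omega
    show ∑ i ∈ x.support.filter (fun i => j ≤ i), ((z : Sˣ) ^ (i - j)) • x i = 0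
    rw [e1, Finset.sum_empty]
  have hgS : ∀ j, (z : Sˣ) • g (j + 1) ∈ Sm hc z K0 1 (b - j) := by
    intro j
    show (z : Sˣ) • ∑ i ∈ x.support.filter (fun i => j + 1 ≤ i), ((z : Sˣ) ^ (i - (j + 1))) • x i ∈ _
    rw [Finset.smul_sum]
    apply Submodule.sum_mem
    intro i hi
    rw [Finset.mem_filter] at hi
    have e1 : (z : Sˣ) • ((z : Sˣ) ^ (i - (j + 1))) • x i = ((z : Sˣ) ^ (i - j)) • x i := by
      rw [smul_smul, ← zpow_one_add]
      congr 2
      ring
    rw [e1]
    have := (hb i hi.1).2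
    exact le_Sm hc z K0 (by omega) (by omega) (IsGoodLat.zpow_mem hc (hx i) (i - j))
  have hgK : ∀ n : ℕ, g (-(b : ℤ) + n) ∈ K0 := by
    intro n
    induction n with
    | zero =>
      rw [hglow _ (by simp)]
      exact K0.zero_mem
    | succ n ih =>
      have h1 := hg1 (-(b : ℤ) + n)
      have h2 : (z : Sˣ) • g (-(b : ℤ) + n + 1) ∈ K0 := by
        have : (z : Sˣ) • g (-(b : ℤ) + n + 1) = g (-(b : ℤ) + n) - x (-(b : ℤ) + n) := by
          rw [h1]
          abel
        rw [this]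
        exact K0.sub_mem ih (hx _)
      have h3 := hg _ ⟨h2, hgS (-(b : ℤ) + n)⟩
      rw [mem_tw, inv_smul_smul] at h3
      have e : -(b : ℤ) + ((n + 1 : ℕ) : ℤ) = -(b : ℤ) + n + 1 := by push_cast; ring
      rw [e]
      exact h3
  have hgK' : ∀ j, g j ∈ K0 := by
    intro j
    by_cases hj : j ≤ -(b : ℤ)
    · rw [hglow j hj]
      exact K0.zero_mem
    · have := hgK (j + b).toNat
      have e : -(b : ℤ) + ((j + b).toNat : ℤ) = j := by omega
      rwa [e] at this
  have hfin : Set.Finite (Function.support g) := by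
    apply (Set.finite_Icc (-(b : ℤ)) b).subset
    intro j hj
    rw [Function.mem_support] at hj
    refine Set.mem_Icc.mpr ⟨?_, ?_⟩
    · by_contra h
      exact hj (hglow j (by omega))
    · by_contra h
      exact hj (hghigh j (by omega))
  refine ⟨Finsupp.ofSupportFinite g hfin, ?_, ?_, ?_⟩
  · exact fun j => hgK' j
  · intro j
    show (z : Sˣ) • g j ∈ K0
    have h1 := hg1 (j - 1)
    rw [sub_add_cancel] at h1
    have : (z : Sˣ) • g j = g (j - 1) - x (j - 1) := by
      rw [h1]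
      abel
    rw [this]
    exact K0.sub_mem (hgK' _) (hx _)
  · intro j
    show x j = g j - (z : Sˣ) • g (j + 1)
    rw [hg1 j]
    abel

/-- Injectivity of the first map, in coefficients. -/
theorem zeta_inj {G : Type*} [Group G] {K : Type*} [AddCommGroup K] [DistribMulAction G K] (z : G)
    (y : ℤ →₀ K) (h : ∀ j, y j = z • y (j + 1)) : y = 0 := by
  by_contra hne
  obtain ⟨j, hj⟩ : ∃ j, y j ≠ 0 := by
    by_contra hall
    push Not at hall
    exact hne (Finsupp.ext hall)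
  have key : ∀ n : ℕ, y (j + n) ≠ 0 := by
    intro n
    induction n with
    | zero => simpa using hj
    | succ n ih =>
      intro h0
      apply ih
      rw [h (j + n)]
      have e : j + (n : ℤ) + 1 = j + ((n + 1 : ℕ) : ℤ) := by push_cast; ring
      rw [e, h0, smul_zero]
  have hinf : Set.Infinite (y.support : Set ℤ) := by
    refine Set.infinite_of_injective_forall_mem (f := fun n : ℕ => j + (n : ℤ)) ?_ ?_
    · intro a b hab
      simpa using hab
    · intro n
      exact Finsupp.mem_support_iff.mpr (key n)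
  exact hinf y.support.finite_toSet

/-- Surjectivity, in coefficients. -/
theorem exists_coeff {z : NU ι} {K0 : Submodule R K} (k : K) {a b : ℤ} (hk : k ∈ Sm hc z K0 a b) :
    ∃ x : ℤ →₀ K, (∀ j, x j ∈ K0) ∧ (x.sum fun j k => ((z : Sˣ) ^ j) • k) = k := by
  classical
  unfold Sm at hk
  refine Submodule.iSup_induction (fun j : {j : ℤ // a ≤ j ∧ j ≤ b} => tw ι hc (z ^ j.1) K0)
    (motive := fun k => ∃ x : ℤ →₀ K, (∀ j, x j ∈ K0) ∧
      (x.sum fun j k => ((z : Sˣ) ^ j) • k) = k) hk ?_ ?_ ?_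
  · intro j y hy
    rw [mem_tw] at hy
    refine ⟨Finsupp.single j.1 (((z ^ j.1 : NU ι) : Sˣ)⁻¹ • y), ?_, ?_⟩
    · intro i
      rw [Finsupp.single_apply]
      split_ifs
      · exact hy
      · exact K0.zero_mem
    · rw [Finsupp.sum_single_index (by simp)]
      simp
  · exact ⟨0, fun j => K0.zero_mem, by simp⟩
  · rintro x y ⟨x', h1, h2⟩ ⟨y', h3, h4⟩
    refine ⟨x' + y', fun j => K0.add_mem (h1 j) (h3 j), ?_⟩
    rw [Finsupp.sum_add_index' (by simp) (by simp [smul_add]), h2, h4]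

end Lat

end Pool.Agent.UP94
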